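import Mathlib

set_option autoImplicit false

open Set Cardinal

namespace Pool.Agent.Results.MP_04ddd8_lc.ProperSigmaAlgebra

section comb

variable {W : Type} [LinearOrder W]

/-- `Y` is covered by countably many graphs of maps read upwards. -/
def Small (Y : Set W) : Prop :=
  ∃ g : ℕ → W → W, ∀ a ∈ Y, ∃ n, ∃ b < a, g n b = a

lemma Small.mono {X Y : Set W} (h : Small Y) (hXY : X ⊆ Y) : Small X := by
  obtain ⟨g, hg⟩ := h
  exact ⟨g, fun a ha => hg a (hXY ha)⟩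

lemma small_empty : Small (∅ : Set W) := ⟨fun _ => id, fun _ h => h.elim⟩

lemma small_iUnion {Y : ℕ → Set W} (h : ∀ n, Small (Y n)) : Small (⋃ n, Y n) := by
  choose g hg using h
  refine ⟨fun k => g k.unpair.1 k.unpair.2, fun a ha => ?_⟩
  obtain ⟨n, hn⟩ := mem_iUnion.1 ha
  obtain ⟨m, b, hb, h⟩ := hg n a hn
  exact ⟨Nat.pair n m, b, hb, by simpa using h⟩

lemma exists_closed {ι : Type} {l : Cardinal} (hl : ℵ₀ ≤ l) (hι : #ι ≤ l) (g : ι → W → W)
    (C0 : Set W) (h0 : #C0 ≤ l) :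
    ∃ C : Set W, C0 ⊆ C ∧ #C ≤ l ∧ ∀ i, ∀ b ∈ C, g i b ∈ C := by
  obtain ⟨C, hC0, hCs⟩ : ∃ C : ℕ → Set W, C 0 = C0 ∧ ∀ n, C (n + 1) = C n ∪ ⋃ i, g i '' C n :=
    ⟨fun n => Nat.rec C0 (fun _ D => D ∪ ⋃ i, g i '' D) n, rfl, fun _ => rfl⟩
  have hC : ∀ n, #(C n) ≤ l := by
    intro n
    induction n with
    | zero => rw [hC0]; exact h0
    | succ n ih =>
      rw [hCs]
      refine (mk_union_le _ _).trans (add_le_of_le hl ih ?_)
      refine (mk_iUnion_le _).trans ?_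
      have : (⨆ i, #(g i '' C n)) ≤ l := ciSup_le' fun i => mk_image_le.trans ih
      calc #ι * (⨆ i, #(g i '' C n)) ≤ l * l := by gcongr
        _ = l := mul_eq_self hl
  refine ⟨⋃ n, C n, hC0 ▸ subset_iUnion C 0, ?_, fun i b hb => ?_⟩
  · refine (mk_iUnion_le _).trans ?_
    have : (⨆ n, #(C n)) ≤ l := ciSup_le' hC
    calc #ℕ * (⨆ n, #(C n)) ≤ l * l := by
          gcongr
          simpa using hl
      _ = l := mul_eq_self hl
  · obtain ⟨n, hn⟩ := mem_iUnion.1 hb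
    refine mem_iUnion.2 ⟨n + 1, ?_⟩
    rw [hCs]
    exact Or.inr (mem_iUnion.2 ⟨i, b, hn, rfl⟩)

variable [WellFoundedLT W]

lemma exists_min_compl (C : Set W) (h : #C < #W) : ∃ a, a ∉ C ∧ Iio a ⊆ C := by
  have hne : (Cᶜ).Nonempty := by
    rw [nonempty_compl]
    rintro rfl
    simp at h
  refine ⟨wellFounded_lt.min Cᶜ hne, wellFounded_lt.min_mem _ hne, fun b hb => ?_⟩
  by_contra hbC
  exact wellFounded_lt.not_lt_min Cᶜ hbC hb

lemma level {l : Cardinal} (hl : ℵ₀ ≤ l) (hlW : l < #W) :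
    ∃ (F : Set W) (A : W → Set W), l < #F ∧ (∀ b ∈ F, ¬ Small (A b)) ∧
      (∀ b, ∀ a ∈ A b, #(Iio a) = l) ∧ ∀ b c, b ≠ c → Disjoint (A b) (A c) := by
  classical
  set D : Set W := {a | #(Iio a) ≤ l} with hD
  have hDl : l < #D := by
    by_contra hc
    push Not at hc
    obtain ⟨a, ha, hsub⟩ := exists_min_compl D (hc.trans_lt hlW)
    exact ha ((mk_le_mk_of_subset hsub).trans hc)
  obtain ⟨T, hTD, hT⟩ := le_mk_iff_exists_subset.1 hDl.le
  have he : ∀ a : W, ∃ e : l.out → W, #(Iio a) ≤ l → Iio a ⊆ range e := by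
    intro a
    by_cases h : #(Iio a) ≤ l
    · have h' : #(Iio a) ≤ #(l.out) := by simpa using h
      obtain ⟨j⟩ := (Cardinal.le_def _ _).1 h'
      refine ⟨Function.extend j Subtype.val (fun _ => a), fun _ b hb => ⟨j ⟨b, hb⟩, ?_⟩⟩
      rw [j.injective.extend_apply]
    · exact ⟨fun _ => a, fun h' => absurd h' h⟩
  choose e he using he
  let A : l.out → W → Set W := fun x b => {a | #(Iio a) = l ∧ e a x = b}
  have hA : ∀ b : D, ∃ x, ¬ Small (A x b) := by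
    intro b
    by_contra hc
    push Not at hc
    choose g hg using hc
    have hC0 : #(⋃ t : (insert b.1 T : Set W), Iic t.1 : Set W) ≤ l := by
      refine (mk_iUnion_le _).trans ?_
      have h1 : #(insert b.1 T : Set W) ≤ l :=
        mk_insert_le.trans (add_le_of_le hl hT.le (one_le_aleph0.trans hl))
      have h2 : (⨆ t : (insert b.1 T : Set W), #(Iic t.1)) ≤ l := by
        refine ciSup_le' fun t => ?_
        have ht : t.1 ∈ D := by
          rcases t.2 with h | h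
          · rw [h]; exact b.2
          · exact hTD h
        rw [← Iio_insert]
        exact mk_insert_le.trans (add_le_of_le hl ht (one_le_aleph0.trans hl))
      calc _ ≤ l * l := by gcongr
        _ = l := mul_eq_self hl
    obtain ⟨C, hC1, hC2, hC3⟩ := exists_closed (ι := l.out × ℕ) hl (by
      simp only [mk_prod, mk_out, lift_id, mk_nat, lift_aleph0]
      calc l * ℵ₀ ≤ l * l := by gcongr
        _ = l := mul_eq_self hl) (fun p => g p.1 p.2) _ hC0
    obtain ⟨a, haC, hsub⟩ := exists_min_compl C (hC2.trans_lt hlW)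
    have hlt : ∀ t ∈ (insert b.1 T : Set W), t < a := by
      intro t ht
      by_contra hc
      exact haC (hC1 (mem_iUnion.2 ⟨⟨t, ht⟩, not_lt.1 hc⟩))
    have hal : #(Iio a) = l := by
      refine le_antisymm ((mk_le_mk_of_subset hsub).trans hC2) ?_
      rw [← hT]
      exact mk_le_mk_of_subset fun t ht => hlt t (Or.inr ht)
    obtain ⟨x, hx⟩ := he a hal.le (hlt b.1 (Or.inl rfl))
    obtain ⟨n, c, hc, hgc⟩ := hg x a ⟨hal, hx⟩
    exact haC (hgc ▸ hC3 (x, n) c (hsub hc))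
  choose f hf using hA
  obtain ⟨x, hx⟩ := Cardinal.infinite_pigeonhole_card_lt f (by simpa using hDl) (hl.trans hDl.le)
  refine ⟨Subtype.val '' (f ⁻¹' {x}), A x, ?_, ?_, fun b a ha => ha.1, fun b c hbc => ?_⟩
  · rw [mk_image_eq Subtype.val_injective]
    simpa using hx
  · rintro _ ⟨b, hb, rfl⟩
    have : f b = x := hb
    exact this ▸ hf b
  · rw [Set.disjoint_left]
    rintro a ⟨-, h1⟩ ⟨-, h2⟩
    exact hbc (h1.symm.trans h2)

lemma many (hW : ℵ₀ < #W) :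
    ∃ T : W → Set W, (∀ w, ¬ Small (T w)) ∧ ∀ v w, v ≠ w → Disjoint (T v) (T w) := by
  have h := fun (l : Cardinal.{0}) (hl : ℵ₀ ≤ l ∧ l < #W) => level (W := W) hl.1 hl.2
  choose! F A h1 h2 h3 h4 using h
  let S : Type 1 := {p : Cardinal.{0} × W // (ℵ₀ ≤ p.1 ∧ p.1 < #W) ∧ p.2 ∈ F p.1}
  have hS : lift.{1} #W ≤ lift.{0} #S := by
    rw [lift_uzero]
    by_contra hc
    push Not at hc
    obtain ⟨m, hm, hmS⟩ := lt_lift_iff.1 hc
    have hl : ℵ₀ ≤ max m ℵ₀ ∧ max m ℵ₀ < #W := ⟨le_max_right _ _, max_lt hm hW⟩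
    have h5 : lift.{1} #(F (max m ℵ₀)) ≤ lift.{0} #S := by
      refine lift_mk_le'.2 ⟨⟨fun b => ⟨(max m ℵ₀, b.1), hl, b.2⟩, fun b c hbc => ?_⟩⟩
      exact Subtype.ext (congrArg (fun p : S => p.1.2) hbc)
    rw [lift_uzero, ← hmS, lift_le] at h5
    exact absurd ((h1 _ hl).trans_le h5) (not_lt.2 (le_max_left _ _))
  obtain ⟨j⟩ := lift_mk_le'.1 hS
  refine ⟨fun w => A (j w).1.1 (j w).1.2, fun w => h2 _ (j w).2.1 _ (j w).2.2, fun v w hvw => ?_⟩
  by_cases hl : (j v).1.1 = (j w).1.1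
  · have hb : (j v).1.2 ≠ (j w).1.2 := fun hb =>
      hvw (j.injective (Subtype.ext (Prod.ext hl hb)))
    show Disjoint (A (j v).1.1 (j v).1.2) (A (j w).1.1 (j w).1.2)
    rw [hl]
    exact h4 _ (j w).2.1 _ _ hb
  · rw [Set.disjoint_left]
    intro a ha hb
    exact hl ((h3 _ (j v).2.1 _ a ha).symm.trans (h3 _ (j w).2.1 _ a hb))

end comb

/-- There is a proper `σ`-algebra on `[0,1]` containing all subintervals and a selector of every
partition of `[0,1]` into pieces with at least two elements. -/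
theorem result :
    ∃ N : Set (Set (Icc (0 : ℝ) 1)),
      (∀ A : Set (Icc (0 : ℝ) 1), A.OrdConnected → A ∈ N) ∧
      (∀ A ∈ N, Aᶜ ∈ N) ∧
      (∀ A : ℕ → Set (Icc (0 : ℝ) 1), (∀ n, A n ∈ N) → (⋃ n, A n) ∈ N) ∧
      (∀ P : Set (Set (Icc (0 : ℝ) 1)), P.PairwiseDisjoint id → ⋃₀ P = Set.univ →
        (∀ p ∈ P, p.Nontrivial) → ∃ S ∈ N, ∀ p ∈ P, ∃! x, x ∈ S ∩ p) ∧
      ∃ X : Set (Icc (0 : ℝ) 1), X ∉ N := by
  classical
  let W : Type := (𝔠 : Cardinal.{0}).ord.ToType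
  have hW : #W = 𝔠 := by simp [W]
  have hI : #(Icc (0 : ℝ) 1) = 𝔠 := mk_Icc_real one_pos
  obtain ⟨φ⟩ : Nonempty (W ≃ Icc (0 : ℝ) 1) := Cardinal.eq.1 (hW.trans hI.symm)
  refine ⟨{X | ∃ B, MeasurableSet B ∧ Small (φ ⁻¹' (symmDiff X B))}, ?_, ?_, ?_, ?_, ?_⟩
  · intro A hA
    exact ⟨A, hA.measurableSet, by simpa using small_empty⟩
  · rintro A ⟨B, hB, h⟩
    exact ⟨Bᶜ, hB.compl, by rwa [compl_symmDiff_compl]⟩
  · intro A hA
    choose B hB h using hA
    refine ⟨⋃ n, B n, MeasurableSet.iUnion hB, (small_iUnion h).mono fun w hw => ?_⟩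
    simp only [mem_preimage, mem_symmDiff, mem_iUnion, not_exists] at hw ⊢
    rcases hw with ⟨⟨n, h1⟩, h2⟩ | ⟨⟨n, h1⟩, h2⟩
    · exact ⟨n, Or.inl ⟨h1, h2 n⟩⟩
    · exact ⟨n, Or.inr ⟨h1, h2 n⟩⟩
  · intro P hP hU hN
    have h1 : ∀ p : P, ∃ m s : W, m < s ∧ φ m ∈ p.1 ∧ φ s ∈ p.1 := by
      intro p
      obtain ⟨x, hx, y, hy, hxy⟩ := hN p.1 p.2
      rcases lt_trichotomy (φ.symm x) (φ.symm y) with h | h | h
      · exact ⟨_, _, h, by simpa using hx, by simpa using hy⟩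
      · exact absurd (φ.symm.injective h) hxy
      · exact ⟨_, _, h, by simpa using hy, by simpa using hx⟩
    choose m s hms hm hs using h1
    have h2 : ∀ w : W, ∃ p : P, φ w ∈ p.1 := by
      intro w
      have : φ w ∈ ⋃₀ P := hU ▸ mem_univ _
      obtain ⟨p, hp, hw⟩ := this
      exact ⟨⟨p, hp⟩, hw⟩
    choose pc hpc using h2
    have h3 : ∀ (p q : P) x, x ∈ p.1 → x ∈ q.1 → p = q := by
      intro p q x hp hq
      by_contra hne
      exact Set.disjoint_left.1 (hP p.2 q.2 (fun h => hne (Subtype.ext h))) hp hq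
    refine ⟨range (fun p => φ (s p)), ⟨∅, MeasurableSet.empty, fun _ w => s (pc w), ?_⟩, ?_⟩
    · intro a ha
      have ha' : φ a ∈ range (fun p => φ (s p)) := by
        rcases ha with h | h
        · exact h.1
        · exact h.1.elim
      obtain ⟨p, hp⟩ := ha'
      have hp' : s p = a := φ.injective hp
      refine ⟨0, m p, hp' ▸ hms p, ?_⟩
      show s (pc (m p)) = a
      rw [h3 (pc (m p)) p _ (hpc _) (hm p), hp']
    · intro p hp
      refine ⟨φ (s ⟨p, hp⟩), ⟨⟨_, rfl⟩, hs ⟨p, hp⟩⟩, ?_⟩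
      rintro _ ⟨⟨q, rfl⟩, hq⟩
      rw [h3 q ⟨p, hp⟩ _ (hs q) hq]
  · obtain ⟨T, hT, hdis⟩ := many (W := W) (hW ▸ aleph0_lt_continuum)
    have hB : #{B : Set (Icc (0 : ℝ) 1) | MeasurableSet B} ≤ #W := by
      rw [hW]
      have h1 := MeasurableSpace.cardinal_measurableSet_le_continuum
        (s := TopologicalSpace.countableBasis (Icc (0 : ℝ) 1))
        ((TopologicalSpace.countable_countableBasis _).le_aleph0.trans aleph0_le_continuum)
      rw [← (TopologicalSpace.isBasis_countableBasis _).borel_eq_generateFrom,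
        ← BorelSpace.measurable_eq] at h1
      exact h1
    obtain ⟨j⟩ := (Cardinal.le_def _ _).1 hB
    refine ⟨{x | ∃ B, φ.symm x ∈ T (j B) ∧ x ∉ B.1}, ?_⟩
    rintro ⟨B, hBm, hsm⟩
    refine hT (j ⟨B, hBm⟩) (hsm.mono fun w hw => ?_)
    simp only [mem_preimage, mem_symmDiff, mem_setOf_eq, Equiv.symm_apply_apply]
    by_cases hwB : φ w ∈ B
    · refine Or.inr ⟨hwB, ?_⟩
      rintro ⟨C, hC1, hC2⟩
      by_cases hBC : C = ⟨B, hBm⟩
      · exact hC2 (hBC ▸ hwB)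
      · exact Set.disjoint_left.1 (hdis _ _ (fun h => hBC (j.injective h))) hC1 hw
    · exact Or.inl ⟨⟨⟨B, hBm⟩, hw, hwB⟩, hwB⟩

end Pool.Agent.Results.MP_04ddd8_lc.ProperSigmaAlgebra
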